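import Pool.Agent.H.MP_682a55_lc.Defs

set_option autoImplicit false

namespace Pool.Agent.H.MP_682a55_lc

open Sum

variable {H : Type} [Group H] {N : Type}

theorem GainGraph.Ind.mono {V E : Type} {G : GainGraph H V E} {X Y : Set E} (h : G.Ind Y) (e : X ⊆ Y) : G.Ind X :=
  have a : ∀ l, G.Cycle X l → G.Cycle Y l := fun _ ⟨a, b, c, d, f⟩ => ⟨a, b, c, d, fun x hx => e (f x hx)⟩
  ⟨fun l h' => h.1 l (a l h'), fun l m h1 h2 d hd f hf c => h.2 l m (a l h1) (a m h2) d hd f hf
    (Relation.ReflTransGen.mono (fun _ _ h => h.imp fun _ h => ⟨e h.1, h.2⟩) _ _ c)⟩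

abbrev Ed (N : Type) := N ⊕ N ⊕ N × N

def GG (α β : N → H) : GainGraph H (Fin 3) (Ed N) where
  src := Sum.elim (fun _ => 0) (Sum.elim (fun _ => 1) fun _ => 0)
  tgt := Sum.elim (fun _ => 1) fun _ => 2
  gain := Sum.elim α (Sum.elim β fun p => α p.1 * β p.2)

variable {α β : N → H}

theorem cyc3 {x y : N} {p : N × N} {l} (h : (GG α β).Cycle {inl x, inr (inl y), inr (inr p)} l) :
    ((l.map (GG α β).val).prod = 1 → α x * β y = α p.1 * β p.2) ∧
      ∀ e, e ∈ l.map Prod.fst ↔ e ∈ ({inl x, inr (inl y), inr (inr p)} : Set (Ed N)) := by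
  obtain ⟨h0, h1, h2, h3, h4⟩ := h
  have h5 : l.length ≤ 3 := by simpa using h2.length_le_card
  rcases l with _ | ⟨⟨a, s⟩, _ | ⟨⟨b, t⟩, _ | ⟨⟨c, u⟩, _ | _⟩⟩⟩
  · exact (h0 rfl).elim
  · obtain rfl | rfl | rfl := h4 (a, s) (by simp) <;> cases s <;> simp [GG, GainGraph.head, GainGraph.tail] at h1
  · obtain rfl | rfl | rfl := h4 (a, s) (by simp) <;> obtain rfl | rfl | rfl := h4 (b, t) (by simp) <;>
      cases s <;> cases t <;> simp [GG, GainGraph.head, GainGraph.tail] at h1 h3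
  · obtain rfl | rfl | rfl := h4 (a, s) (by simp) <;> obtain rfl | rfl | rfl := h4 (b, t) (by simp) <;>
      obtain rfl | rfl | rfl := h4 (c, u) (by simp) <;> simp at h3 <;>
      cases s <;> cases t <;> cases u <;> simp [GG, GainGraph.head, GainGraph.tail] at h1 <;>
      refine ⟨?_, by simp [or_comm, or_left_comm]⟩ <;> simp [GG, GainGraph.val, -mul_inv_rev] <;>
      generalize α x = a, β y = b, α p.1 * β p.2 = c <;> intro h <;> have h := eq_inv_of_mul_eq_one_left h <;>
      (try rw [inv_inj] at h) <;> subst h <;> group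
  · simp at h5; omega

theorem tri (hi : ∀ p q : N × N, α p.1 * β p.2 = α q.1 * β q.2 → p = q) {x y : N} {p : N × N} :
    (GG α β).Ind {inl x, inr (inl y), inr (inr p)} ↔ p ≠ (x, y) := by
  refine ⟨fun h e => h.1 [(inl x, true), (inr (inl y), true), (inr (inr p), false)] ?_ ?_, fun h =>
    ⟨fun l a b => h (hi (x, y) _ ((cyc3 a).1 b)).symm, fun l m a b _ _ _ _ _ e => by rw [(cyc3 a).2, (cyc3 b).2]⟩⟩
  · simp [GainGraph.Cycle, GG, GainGraph.head, GainGraph.tail]
  · simp [GG, GainGraph.val, e, ← mul_assoc]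

def cl : Ed N → Fin 3 := Sum.elim (fun _ => 0) (Sum.elim (fun _ => 1) fun _ => 2)

theorem cyc2 {X : Set (Ed N)} {a b} (ha : a ∈ X) (hb : b ∈ X) (e : a ≠ b) (h : cl a = cl b) :
    (GG α β).Cycle X [(a, true), (b, false)] := by
  rcases a with _ | _ | _ <;> rcases b with _ | _ | _ <;>
    simp_all [GainGraph.Cycle, GG, GainGraph.head, GainGraph.tail, cl]

theorem two {X : Set (Ed N)} (h : (GG α β).Ind X) {l m} (h1 : (GG α β).Cycle X l) (h2 : (GG α β).Cycle X m)
    (a : 2 ≤ l.length) (b : 2 ≤ m.length) (x) : x ∈ l.map Prod.fst ↔ x ∈ m.map Prod.fst := by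
  have : ¬(l.map (GG α β).tail ++ m.map (GG α β).tail).Nodup := fun e => by
    have := e.length_le_card
    simp at this
    omega
  simp only [List.nodup_append, h1.2.2.1, h2.2.2.1, true_and, List.forall_mem_map, not_forall, not_not] at this
  obtain ⟨d, hd, e, he, c⟩ := this
  exact h.2 l m h1 h2 d hd e he (c ▸ .refl) x

theorem rank (hi : ∀ p q : N × N, α p.1 * β p.2 = α q.1 * β q.2 → p = q) {x y : N} (e : x ≠ y) :
    (GG α β).Rank 3 := by
  classical
  refine ⟨⟨{inl x, inr (inl x), inr (inr (y, y))}, by simpa using (tri hi).2 (by simpa using e.symm), by simp⟩, ?_⟩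
  rintro _ ⟨X, h, rfl⟩
  by_contra! c
  obtain ⟨a, ha, b, hb, e1, e2⟩ := Finset.exists_ne_map_eq_of_card_lt_of_maps_to (s := X) (t := .univ) (f := cl)
    (by simpa) (by simp)
  obtain ⟨c, hc, d, hd, e3⟩ := Finset.one_lt_card.1 (show 1 < ((X.erase a).erase b).card by grind)
  simp only [Finset.mem_erase] at hc hd
  have k := fun l h2 b => two (m := l) h (cyc2 ha hb e1 e2) h2 (by simp) b
  have k2 := fun a b h1 h2 h3 h4 => k _ (cyc2 (a := a) (b := b) h1 h2 h3 h4) (by simp)
  by_cases f1 : cl a = cl c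
  · simpa [hc] using k2 a c ha hc.2.2 (by grind) f1 c
  by_cases f2 : cl a = cl d
  · simpa [hd] using k2 a d ha hd.2.2 (by grind) f2 d
  by_cases f3 : cl c = cl d
  · simpa [hc] using k2 c d hc.2.2 hd.2.2 e3 f3 c
  have k3 : ∀ x y p, inl x ∈ X → inr (inl y) ∈ X → inr (inr p) ∈ X → False := fun x y p h1 h2 h3 => by
    have := k [(inl x, true), (inr (inl y), true), (inr (inr p), false)]
      (by simp [GainGraph.Cycle, GG, GainGraph.head, GainGraph.tail, *]) (by simp)
    have a := (this (inl x)).2 (by simp)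
    have b := (this (inr (inl y))).2 (by simp)
    have c := (this (inr (inr p))).2 (by simp)
    simp only [List.map_cons, List.map_nil, List.mem_cons, List.not_mem_nil, or_false] at a b c
    grind
  have := hc.2.2
  have := hd.2.2
  rcases a with _ | _ | _ <;> rcases c with _ | _ | _ <;> rcases d with _ | _ | _ <;> simp [cl] at f1 f2 f3 <;>
    exact k3 _ _ _ ‹_› ‹_› ‹_›

theorem exists_ab [Infinite H] (n : ℕ) : ∃ α β : Fin n → H, ∀ p q : Fin n × Fin n,
    α p.1 * β p.2 = α q.1 * β q.2 → p = q := by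
  classical
  let α : Fin n → H := fun i => Infinite.natEmbedding H i
  obtain ⟨β, -, h⟩ := exists_seq_of_forall_finset_exists (fun _ : H => True) (fun x y => ∀ i j, α i * x ≠ α j * y)
    fun s _ => by
      obtain ⟨y, h⟩ := Infinite.exists_notMem_finset ((s ×ˢ .univ).image fun p : H × Fin n × Fin n =>
        (α p.2.2)⁻¹ * (α p.2.1 * p.1))
      exact ⟨y, trivial, fun x hx i j e => h (Finset.mem_image.2 ⟨(x, i, j), by simpa, by simp [e]⟩)⟩
  refine ⟨α, fun i => β i, fun ⟨a, b⟩ ⟨c, d⟩ e => ?_⟩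
  rcases lt_trichotomy b d with f | rfl | f
  · exact (h _ _ f _ _ e).elim
  · simpa [α, Fin.val_inj] using e
  · exact (h _ _ f _ _ e.symm).elim

end Pool.Agent.H.MP_682a55_lc
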