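import Pool.Agent.H.MP_682a55_lc.A
import Pool.Agent.Lib.helper21.Queue

set_option autoImplicit false

namespace Pool.Agent.H.MP_682a55_lc

open Function Pool.Agent.Lib.helper21.Mach Pool.Agent.Lib.helper21.While

variable {Q E : Type} {K : ℕ} (M : CM Q) (q0 : Q) (r : Q → Fin (K + 1))

def Rep (A : Set E) (S : Set E → Set E → Prop) : ℕ → Set E → Prop
  | 0, x => ¬∃ y ∈ A, S {y} x
  | m + 1, x => ∃ y ∈ A, S {y} x ∧ Rep A S m {y}

def Ef (S : Set E → Set E → Prop) : Option Bool → Set E → Set E → Prop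
  | none, x, y => x = y
  | some true, x, y => S x y
  | some false, x, y => S y x

def ef (q : Q) (b : Bool) (i : Fin (K + 1)) : Option Bool := if i = r q then M.eff q b else none

def Psi (A : Set E) (S : Set E → Set E → Prop) (R : Fin (K + 1) → Set E → Set E → Prop) (P : Q → Set E) (n : ℕ) :
    Prop :=
  (∀ y ∈ A, ∀ z ∈ A, ∀ x ∈ A, S {y} {x} → S {z} {x} → ({y} : Set E) = {z}) ∧
  (∀ q b q', M.nxt q b = some q' → ∀ t ∈ A, t ∈ P q → ∀ v ∈ A, R (r q) {t} {v} → (Rep A S 0 {v} ↔ b = true) →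
    ∃ u ∈ A, S {t} {u} ∧ u ∈ P q' ∧ ∀ i, ∀ v ∈ A, R i {t} {v} → ∃ w ∈ A, R i {u} {w} ∧ Ef S (ef M r q b i) {v} {w}) ∧
  ∃ t ∈ A, Rep A S 0 {t} ∧ t ∈ P q0 ∧ (∀ i : Fin K, ∃ v ∈ A, R i.succ {t} {v} ∧ Rep A S 0 {v}) ∧
    ∃ v ∈ A, R 0 {t} {v} ∧ Rep A S n {v}

variable {M q0 r} {A : Set E} {S : Set E → Set E → Prop} {R : Fin (K + 1) → Set E → Set E → Prop} {P : Q → Set E}
  {n : ℕ}

theorem sound [Finite E] (hr : ∀ q, (r q : ℕ) = M.reg q) (h : Psi M q0 r A S R P n) :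
    Halts (M.step 0) (q0, init n) := by
  obtain ⟨h1, h2, t, a1, a2, a3, a4, a5⟩ := h
  simp only [Set.singleton_eq_singleton_iff] at h1
  have uq : ∀ m k, ∀ x ∈ A, Rep A S m {x} → Rep A S k {x} → m = k := fun m => by
    induction m with
    | zero => rintro (_ | k) x - h h'; exacts [rfl, (h (h'.imp fun _ h => ⟨h.1, h.2.1⟩)).elim]
    | succ m ih =>
      rintro (_ | k) x hx h h'
      · exact (h' (h.imp fun _ h => ⟨h.1, h.2.1⟩)).elim
      · obtain ⟨y, b1, b2, b3⟩ := h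
        obtain ⟨z, c1, c2, c3⟩ := h'
        rw [ih k y b1 b3 (h1 y b1 z c1 x hx b2 c2 ▸ c3)]
  rw [halts_iff]
  by_contra! hn
  have : ∀ j, ∃ t ∈ A, Rep A S j {t} ∧ ∃ c, (fun o => o.bind (M.step 0))^[j] (some (q0, init n)) = some c ∧
      t ∈ P c.1 ∧ ∀ i : Fin (K + 1), ∃ v ∈ A, R i {t} {v} ∧ Rep A S (c.2 i) {v} := fun j => by
    induction j with
    | zero => exact ⟨t, a1, a2, _, rfl, a3, Fin.cases a5 fun i => by simpa [init] using a4 i⟩
    | succ j ih =>
      obtain ⟨t, b1, b2, ⟨q, σ⟩, b3, b4, b5⟩ := ih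
      have := hn (j + 1)
      rw [iterate_succ_apply', b3, Option.bind_some] at this ⊢
      obtain ⟨q', e⟩ := Option.ne_none_iff_exists'.1 (mt Option.map_eq_none_iff.2 this)
      obtain ⟨v, c1, c2, c3⟩ := b5 (r q)
      have c4 : M.tst 0 (q, σ) = true ↔ σ (r q) = 0 := by simp [CM.tst, CM.thr, hr]
      obtain ⟨u, d1, d2, d3, d4⟩ := h2 q _ q' e t b1 b4 v c1 c2
        ⟨fun h => c4.2 (uq _ _ v c1 c3 h), fun h => c4.1 h ▸ c3⟩
      refine ⟨u, d1, ⟨t, b1, d2, b2⟩, _, by rw [CM.step, e]; rfl, d3, fun i => ?_⟩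
      obtain ⟨v, e1, e2, e3⟩ := b5 i
      obtain ⟨w, f1, f2, f3⟩ := d4 i v e1 e2
      refine ⟨w, f1, f2, ?_⟩
      have nz : M.eff q (M.tst 0 (q, σ)) = some false → σ (r q) ≠ 0 := fun h e => M.nodec q (c4.2 e ▸ h)
      by_cases g : i = r q <;> rcases g' : M.eff q (M.tst 0 (q, σ)) with _ | _ | _ <;>
        simp only [ef, g, g', Ef, app, ← hr, if_true, if_false, update_apply, Fin.val_inj] at f3 e3 ⊢ <;>
        first | exact f3 ▸ e3 | skip
      · obtain ⟨m, e⟩ : ∃ m, σ (r q) = m + 1 := Nat.exists_eq_succ_of_ne_zero (nz g')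
        rw [e] at e3 ⊢
        obtain ⟨y, g1, g2, g3⟩ := e3
        exact h1 y g1 w f1 v e1 g2 f3 ▸ g3
      · exact ⟨v, e1, f3, e3⟩
  choose f h3 h4 _ using this
  exact not_injective_infinite_finite f fun a b e => uq _ _ _ (h3 a) (h4 a) (e ▸ h4 b)

def Dep (I : Set E → Prop) (x y z : Set E) : Prop := ¬∃ X, x ⊆ X ∧ y ⊆ X ∧ z ⊆ X ∧ I X

def Rl (I : Set E → Prop) (B D R x y : Set E) : Prop :=
  ∃ b ∈ B, ∃ c ∈ R, ∃ d ∈ D, Dep I x {b} {c} ∧ Dep I y {b} {d}

abbrev Ix (Q : Type) (K : ℕ) := Fin 4 ⊕ Fin (K + 1) ⊕ Q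

open Sum

def PsiM (M : CM Q) (q0 : Q) (r : Q → Fin (K + 1)) (I : Set E → Prop) (w : Ix Q K → Set E) (n : ℕ) : Prop :=
  Psi M q0 r (w (inl 0)) (Rl I (w (inl 1)) (w (inl 2)) (w (inl 3)))
    (fun i => Rl I (w (inl 1)) (w (inl 2)) (w (inr (inl i)))) (fun q => w (inr (inr q))) n

theorem complete {H : Type} [Group H] [Infinite H] (hr : ∀ q, (r q : ℕ) = M.reg q)
    (h : Halts (M.step 0) (q0, init n)) :
    ∃ N, ∃ G : GainGraph H (Fin 3) (Ed (Fin N)), G.Rank 3 ∧ ∃ w, PsiM M q0 r G.Ind w n := by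
  obtain ⟨J, hJ⟩ := (halts_iff ..).1 h
  set c := fun j => (fun o => o.bind (M.step 0))^[j] (some (q0, init n)) with hc
  have cs : ∀ j, c (j + 1) = (c j).bind (M.step 0) := fun j => iterate_succ_apply' ..
  have hb : ∀ j q σ, c j = some (q, σ) → j < J ∧ ∀ i, σ i ≤ n + j := fun j q σ e => ⟨by_contra fun a => by
      obtain ⟨k, rfl⟩ := Nat.exists_eq_add_of_le (not_lt.1 a)
      have : c (J + k) = none := by
        clear e a
        induction k with
        | zero => exact hJ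
        | succ k ih => rw [← add_assoc, cs, ih]; rfl
      simp [this] at e, by
    induction j generalizing q σ with
    | zero => cases e; intro i; simp only [init, update_apply]; split_ifs <;> omega
    | succ j ih =>
      rw [cs] at e
      obtain ⟨⟨p, τ⟩, e1, e2⟩ := Option.bind_eq_some_iff.1 e
      obtain ⟨_, -, ⟨⟩⟩ := Option.map_eq_some_iff.1 e2
      intro i
      have := ih p τ e1
      rcases M.eff p _ with _ | _ | _ <;> simp only [app, update_apply] <;> grind⟩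
  obtain ⟨α, β, hi⟩ := exists_ab (H := H) (n + J + 2)
  refine ⟨_, GG α β, rank hi (x := 0) (y := 1) (by simp), ?_⟩
  let pr : (Fin (n + J + 2) → Fin (n + J + 2) → Prop) → Set (Ed (Fin (n + J + 2))) :=
    fun ρ => (fun p => inr (inr p)) '' {p | ρ p.1 p.2}
  have key : ∀ ρ x y, Rl (GG α β).Ind (Set.range fun y => inr (inl y)) (pr Eq) (pr ρ) {inl x} {inl y} ↔ ρ x y := by
    have : ∀ x y p, Dep (GG α β).Ind {inl x} {inr (inl y)} {inr (inr p)} ↔ p = (x, y) := fun x y p => by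
      rw [← not_iff_not, ← ne_eq, ← tri hi, Dep, not_not]
      exact ⟨fun ⟨X, a, b, c, d⟩ => d.mono (by simp_all [Set.insert_subset_iff]), fun h => ⟨_, by simp, by simp,
        by simp, h⟩⟩
    simp [Rl, pr, this]
  refine ⟨Sum.elim ![Set.range inl, Set.range fun y => inr (inl y), pr Eq, pr fun x y => (y : ℕ) = x + 1]
    (Sum.elim (fun i => pr fun t v => ∃ q σ, c t = some (q, σ) ∧ σ i = v) fun q =>
      inl '' {t | ∃ σ, c t = some (q, σ)}), ?_⟩
  have rep : ∀ m (x : Fin (n + J + 2)), Rep (Set.range inl) (Rl (GG α β).Ind (Set.range fun y => inr (inl y)) (pr Eq)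
      (pr fun x y => (y : ℕ) = x + 1)) m {inl x} ↔ x = m := fun m => by
    induction m with
    | zero =>
      intro x
      simp only [Rep, Set.exists_range_iff, key]
      exact ⟨fun h => by_contra fun e => h ⟨⟨x - 1, by omega⟩, by dsimp only; omega⟩, by omega⟩
    | succ m ih =>
      intro x
      simp only [Rep, Set.exists_range_iff, key, ih]
      exact ⟨by omega, fun h => ⟨⟨m, by omega⟩, h, rfl⟩⟩
  simp only [PsiM, Psi, Sum.elim_inl, Sum.elim_inr, Matrix.cons_val, Set.forall_mem_range, Set.exists_range_iff, key,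
    rep, inl_injective.mem_set_image, Set.mem_ofPred_eq]
  refine ⟨fun y z x a b => by rw [show y = z by omega], ?_, 0, rfl, ⟨_, rfl⟩,
    fun i => ⟨0, ⟨_, _, rfl, by simp [init]⟩, rfl⟩, ⟨n, by omega⟩, ⟨_, _, rfl, rfl⟩, rfl⟩
  rintro q b q' e t ⟨σ, h1⟩ v ⟨_, _, h2, h3⟩ h4
  cases h1.symm.trans h2
  obtain rfl : b = M.tst 0 (q, σ) := by cases b <;> simp_all [CM.tst, CM.thr]
  have h5 : c (t + 1) = some (q', app (M.eff q (M.tst 0 (q, σ))) (M.reg q) σ) := by
    rw [cs, h1, Option.bind_some, CM.step, e]; rfl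
  obtain ⟨h6, h7⟩ := hb _ _ _ h5
  refine ⟨⟨t + 1, by omega⟩, rfl, ⟨_, h5⟩, ?_⟩
  rintro i v ⟨_, _, h8, h9⟩
  cases h1.symm.trans h8
  obtain ⟨w, hw⟩ : ∃ w : Fin (n + J + 2), app (M.eff q (M.tst 0 (q, σ))) (M.reg q) σ i = w :=
    ⟨⟨_, (h7 i).trans_lt (by omega)⟩, rfl⟩
  refine ⟨w, ⟨_, _, h5, hw⟩, ?_⟩
  have nz : M.eff q (M.tst 0 (q, σ)) = some false → σ (r q) ≠ 0 := fun h e =>
    M.nodec q ((show M.tst 0 (q, σ) = true by simp [CM.tst, CM.thr, ← hr, e]) ▸ h)
  by_cases g : i = r q <;> rcases g' : M.eff q (M.tst 0 (q, σ)) with _ | _ | _ <;>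
    simp only [ef, g, g', Ef, app, ← hr, if_true, if_false, update_apply, Fin.val_inj, key,
      Set.singleton_eq_singleton_iff, inl.injEq, forall_const] at h9 nz hw ⊢ <;> omega

variable {n : ℕ}

def imp (a b : Fm n) : Fm n := .not (.and a (.not b))
def all (a : Fm (n + 1)) : Fm n := .not (.ex (.not a))
def eqF (i j : Fin n) : Fm n := .and (.sub i j) (.sub j i)
def emp (i : Fin n) : Fm n := all (.sub i.succ 0)
def el (i X : Fin n) : Fm n :=
  .and (.sub i X) (.and (.not (emp i)) (all (imp (.sub 0 i.succ) (imp (.not (emp 0)) (.sub i.succ 0)))))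
def exE (X : Fin n) (φ : Fm (n + 1)) : Fm n := .ex (.and (el 0 X.succ) φ)
def alE (X : Fin n) (φ : Fm (n + 1)) : Fm n := .not (exE X (.not φ))
def lt (X : Fin n) (φ : Fm (n + 1)) : Fm n := .ex (.and (eqF 0 X.succ) φ)
def dep (i j k : Fin n) : Fm n := .not (.ex (.and (.sub i.succ 0) (.and (.sub j.succ 0) (.and (.sub k.succ 0) (.ind 0)))))
def rel (B D R i j : Fin n) : Fm n :=
  exE B (exE R.succ (exE D.succ.succ (.and (dep i.succ.succ.succ 2 1) (dep j.succ.succ.succ 2 0))))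
def zr (A B D S i : Fin n) : Fm n := .not (exE A (rel B.succ D.succ S.succ 0 i.succ))
def pick (A B D S : Fin n) (φ : Fm (n + 5)) : Fm n := lt S (lt D.succ (lt B.succ.succ (lt A.succ.succ.succ (exE 0 φ))))
def num : ℕ → ∀ {n}, Fm (n + 5)
  | 0, _ => zr 1 2 3 4 0
  | m + 1, _ => pick 1 2 3 4 (.and (rel 2 3 4 0 5) (num m))
def conj {α : Type} (l : List α) (f : α → Fm n) : Fm n := l.foldr (fun a φ => .and (f a) φ) (.ex (.sub 0 0))
def exN : ∀ {n}, Fm n → Fm 0
  | 0, φ => φ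
  | _ + 1, φ => exN (.ex φ)

variable {I : Set E → Prop} {v : Fin n → Set E}

@[simp] theorem s_imp {a b} : (imp a b).Sat I v ↔ (a.Sat I v → b.Sat I v) := by simp [imp, Fm.Sat]
@[simp] theorem s_eq {i j} : (eqF i j).Sat I v ↔ v i = v j := Set.Subset.antisymm_iff.symm
theorem s_el {i X} : (el i X).Sat I v ↔ ∃ e ∈ v X, v i = {e} := by
  simp only [el, emp, all, s_imp, Fm.Sat, Fin.cons_succ, Fin.cons_zero, not_exists, not_not]
  constructor
  · rintro ⟨a, b, c⟩
    obtain ⟨e, he⟩ : (v i).Nonempty := Set.nonempty_iff_ne_empty.2 fun e => b (by simp [e])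
    exact ⟨e, a he, (c {e} (by simpa) fun h => by simpa using h ∅).antisymm (by simpa)⟩
  · rintro ⟨e, a, b⟩
    refine ⟨by simpa [b], fun h => by simpa [b] using h ∅, fun x c d => ?_⟩
    rw [b] at c ⊢
    rcases Set.subset_singleton_iff_eq.1 c with rfl | rfl <;> simp at d ⊢
@[simp] theorem s_exE {X φ} : (exE X φ).Sat I v ↔ ∃ e ∈ v X, φ.Sat I (Fin.cons {e} v) := by
  simp only [exE, Fm.Sat, s_el, Fin.cons_succ, Fin.cons_zero]
  grind
@[simp] theorem s_alE {X φ} : (alE X φ).Sat I v ↔ ∀ e ∈ v X, φ.Sat I (Fin.cons {e} v) := by simp [alE, Fm.Sat]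
theorem s_lt {X φ} : (lt X φ).Sat I v ↔ φ.Sat I (Fin.cons (v X) v) := by simp [lt, Fm.Sat]
@[simp] theorem s_rel {B D R i j} : (rel B D R i j).Sat I v ↔ Rl I (v B) (v D) (v R) (v i) (v j) := by
  simp only [rel, s_exE]
  rfl
@[simp] theorem s_zr {A B D S i} : (zr A B D S i).Sat I v ↔ Rep (v A) (Rl I (v B) (v D) (v S)) 0 (v i) := by
  simp only [zr, Fm.Sat, s_exE, s_rel]
  rfl
theorem s_num (m : ℕ) {n} {v : Fin (n + 5) → Set E} :
    (num m).Sat I v ↔ Rep (v 1) (Rl I (v 2) (v 3) (v 4)) m (v 0) := by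
  induction m generalizing n with
  | zero => exact s_zr
  | succ m ih =>
    simp only [num, pick, s_lt, s_exE, Fm.Sat, s_rel, ih]
    rfl
@[simp] theorem s_conj {α : Type} {l : List α} {f} : (conj l f).Sat I v ↔ ∀ a ∈ l, (f a).Sat I v := by
  induction l <;> simp_all [conj, Fm.Sat]
theorem s_exN {φ : Fm n} : (exN φ).Sat I Fin.elim0 ↔ ∃ v, φ.Sat I v := by
  induction n with
  | zero => exact ⟨fun h => ⟨_, h⟩, fun ⟨v, h⟩ => Subsingleton.elim v Fin.elim0 ▸ h⟩
  | succ n ih => exact ih.trans ⟨fun ⟨_, _, h⟩ => ⟨_, h⟩, fun ⟨v, h⟩ => ⟨Fin.tail v, v 0, by simpa⟩⟩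

def rl (c : Ix Q K → Fin n) (R : Ix Q K) (i j : Fin n) : Fm n := rel (c (inl 1)) (c (inl 2)) (c R) i j
def z0 (c : Ix Q K → Fin n) (i : Fin n) : Fm n := zr (c (inl 0)) (c (inl 1)) (c (inl 2)) (c (inl 3)) i
def efF (c : Ix Q K → Fin n) : Option Bool → Fin n → Fin n → Fm n
  | none, i, j => eqF i j
  | some true, i, j => rl c (inl 3) i j
  | some false, i, j => rl c (inl 3) j i

abbrev up (c : Ix Q K → Fin n) : Ix Q K → Fin (n + 1) := fun x => (c x).succ

variable (M q0 r) [Fintype Q] (c : Ix Q K → Fin n)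

noncomputable def F1 : Fm n := alE (c (inl 0)) (alE (up c (inl 0)) (alE (up (up c) (inl 0))
  (imp (rl (up (up (up c))) (inl 3) 2 0) (imp (rl (up (up (up c))) (inl 3) 1 0) (eqF 2 1)))))

noncomputable def F2 : Fm n := conj (Finset.univ : Finset (Q × Bool)).toList fun a => conj (M.nxt a.1 a.2).toList fun q =>
  alE (c (inl 0)) (imp (.sub 0 (up c (inr (inr a.1)))) (alE (up c (inl 0))
    (imp (rl (up (up c)) (inr (inl (r a.1))) 1 0) (imp (if a.2 then z0 (up (up c)) 0 else .not (z0 (up (up c)) 0))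
      (exE (up (up c) (inl 0)) (.and (rl (up (up (up c))) (inl 3) 2 0) (.and (.sub 0 (up (up (up c)) (inr (inr q))))
        (conj (List.finRange (K + 1)) fun i => alE (up (up (up c)) (inl 0))
          (imp (rl (up (up (up (up c)))) (inr (inl i)) 3 0) (exE (up (up (up (up c))) (inl 0))
            (.and (rl (up (up (up (up (up c))))) (inr (inl i)) 2 0)
              (efF (up (up (up (up (up c))))) (ef M r a.1 a.2 i) 1 0))))))))))))

def F3 : Fm (n + 1) := .and (z0 (up c) 0) (.and (.sub 0 (up c (inr (inr q0)))) (conj (List.finRange K) fun i =>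
  exE (up c (inl 0)) (.and (rl (up (up c)) (inr (inl i.succ)) 1 0) (z0 (up (up c)) 0))))

noncomputable def F (m : ℕ) : Fm n := .and (.and (F1 c) (F2 M r c)) (exE (c (inl 0)) (.and (F3 q0 c)
  (pick (up c (inl 0)) (up c (inl 1)) (up c (inl 2)) (up c (inl 3))
    (.and (rl (up (up (up (up (up (up c)))))) (inr (inl 0)) 5 0) (num m)))))

theorem s_F (m : ℕ) : (F M q0 r c m).Sat I v ↔ PsiM M q0 r I (v ∘ c) m := by
  have : ∀ {n} (c : Ix Q K → Fin n) (v : Fin n → Set E) o i j, (efF c o i j).Sat I v ↔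
      Ef (Rl I (v (c (inl 1))) (v (c (inl 2))) (v (c (inl 3)))) o (v i) (v j) := by
    rintro _ _ _ (_ | _ | _) <;> simp [efF, Ef, rl]
  simp only [F, F1, F2, F3, pick, s_lt, s_num, rl, z0, Fm.Sat, s_alE, s_exE, s_imp, s_eq, s_rel, s_zr, s_conj, this,
    Finset.mem_toList, Finset.mem_univ, List.mem_finRange, forall_const, Prod.forall, Option.mem_toList,
    and_assoc, PsiM, Psi, ← Set.singleton_subset_iff]
  refine and_congr .rfl (and_congr (forall₂_congr fun q b => ?_) .rfl)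
  cases b <;> simp [Fm.Sat] <;> rfl

theorem c_num (m : ℕ) (n : ℕ) : (num m (n := n)).code = (num m (n := 0)).code := by
  have v3 : ∀ n, ((3 : Fin (n + 4)) : ℕ) = 3 := fun _ => rfl
  have v4 : ∀ n, ((4 : Fin (n + 5)) : ℕ) = 4 := fun _ => rfl
  have v5 : ∀ n, ((5 : Fin (n + 6)) : ℕ) = 5 := fun _ => rfl
  induction m generalizing n with
  | zero => simp only [num, zr, exE, rel, dep, el, emp, all, imp, Fm.code, Fin.val_succ, Fin.val_zero, Fin.val_one,
      Fin.val_two, v3, v4]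
  | succ m ih => simp only [num, pick, lt, eqF, exE, rel, dep, el, emp, all, imp, Fm.code, Fin.val_succ, Fin.val_zero,
      Fin.val_one, Fin.val_two, v3, v4, v5, ih (n + 5), ih (0 + 5)]

def PC (f : ℕ → Fm n) : Prop := Primrec fun m => (f m).code

open Primrec in
theorem c_F : PC fun m => .not (exN (F M q0 r c m)) := by
  have an : ∀ (a : ℕ) {f : ℕ → ℕ}, Primrec f → Primrec fun x => Nat.pair 3 (Nat.pair a (f x)) :=
    fun a _ h => Primrec₂.natPair.comp (const 3) (Primrec₂.natPair.comp (const a) h)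
  have ex : ∀ {f : ℕ → ℕ}, Primrec f → Primrec fun x => Nat.pair 4 (f x) :=
    fun h => Primrec₂.natPair.comp (const 4) h
  have an' : ∀ {n} (a : Fm n) {f}, PC f → PC fun x => a.and (f x) := fun a _ => an _
  have ex' : ∀ {n} {f : ℕ → Fm (n + 1)}, PC f → PC fun x => (f x).ex := ex
  have no : ∀ {f : ℕ → Fm 0}, PC f → PC fun x => (f x).not := fun h => Primrec₂.natPair.comp (const 2) h
  have pk : ∀ {n} (A B D S : Fin n) ψ, ∃ W : ℕ → ℕ, Primrec W ∧ ∀ χ, (pick A B D S (.and ψ χ)).code = W χ.code :=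
    fun A B D S ψ => ⟨_, ex (an _ (ex (an _ (ex (an _ (ex (an _ (ex (an _ (an _ .id)))))))))), fun _ => rfl⟩
  have nm : ∀ n, PC fun m => num m (n := n) := fun n => by
    obtain ⟨W, h1, h2⟩ := pk (n := n + 5) 1 2 3 4 (rel 2 3 4 0 5)
    have : ∀ m, W^[m] (num 0 (n := n)).code = (num m (n := n)).code := fun m => by
      induction m with
      | zero => exact iterate_zero_apply ..
      | succ m ih => rw [iterate_succ_apply', ih, c_num m, ← c_num m (n + 5), ← h2, num]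
    exact (nat_iterate .id (const _) (h1.comp snd).to₂).of_eq this
  have en : ∀ {n} {f : ℕ → Fm n}, PC f → PC fun m => exN (f m) := by
    intro n
    induction n with
    | zero => exact id
    | succ n ih => exact fun h => ih (ex' h)
  obtain ⟨W, h1, h2⟩ := pk (up c (inl 0)) (up c (inl 1)) (up c (inl 2)) (up c (inl 3))
    (rl (up (up (up (up (up (up c)))))) (inr (inl 0)) 5 0)
  exact no (en (an' _ (ex' (an' _ (an' _ ((h1.comp (nm _)).of_eq fun m => (h2 _).symm))))))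

end Pool.Agent.H.MP_682a55_lc
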