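import Mathlib

/-! Frame matroids of gain graphs and the monadic language of matroids. -/

set_option autoImplicit false

namespace Pool.Agent.H.MP_682a55_lc

/-- a graph with edge set `E`, each edge oriented from `src` to `tgt` and carrying a gain -/
structure GainGraph (H V E : Type) where
  src : E → V
  tgt : E → V
  gain : E → H

variable {H V E : Type} [Group H] (G : GainGraph H V E)

/-- an edge traversed forwards (`true`) or backwards -/
def GainGraph.tail (d : E × Bool) : V := if d.2 then G.src d.1 else G.tgt d.1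
def GainGraph.head (d : E × Bool) : V := if d.2 then G.tgt d.1 else G.src d.1
def GainGraph.val (d : E × Bool) : H := if d.2 then G.gain d.1 else (G.gain d.1)⁻¹

/-- a closed walk without repeated vertices or edges, all edges in `X` -/
def GainGraph.Cycle (X : Set E) (l : List (E × Bool)) : Prop :=
  l ≠ [] ∧ l.map G.head = (l.map G.tail).rotate 1 ∧ (l.map G.tail).Nodup ∧ (l.map Prod.fst).Nodup ∧ ∀ d ∈ l, d.1 ∈ X

def GainGraph.Conn (X : Set E) : V → V → Prop :=
  Relation.ReflTransGen fun u v => ∃ d : E × Bool, d.1 ∈ X ∧ G.tail d = u ∧ G.head d = v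

/-- independence in the frame matroid -/
def GainGraph.Ind (X : Set E) : Prop :=
  (∀ l, G.Cycle X l → (l.map G.val).prod ≠ 1) ∧ ∀ l m, G.Cycle X l → G.Cycle X m →
    ∀ d ∈ l, ∀ e ∈ m, G.Conn X (G.tail d) (G.tail e) → ∀ x, x ∈ l.map Prod.fst ↔ x ∈ m.map Prod.fst

def GainGraph.Rank (r : ℕ) : Prop := IsGreatest {n | ∃ X : Finset E, G.Ind X ∧ X.card = n} r

/-- formulas with `n` free set variables -/
inductive Fm : ℕ → Type
  | sub {n} (i j : Fin n) : Fm n
  | ind {n} (i : Fin n) : Fm n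
  | not {n} : Fm n → Fm n
  | and {n} : Fm n → Fm n → Fm n
  | ex {n} : Fm (n + 1) → Fm n

def Fm.Sat (I : Set E → Prop) : ∀ {n}, Fm n → (Fin n → Set E) → Prop
  | _, .sub i j, v => v i ⊆ v j
  | _, .ind i, v => I (v i)
  | _, .not φ, v => ¬φ.Sat I v
  | _, .and φ ψ, v => φ.Sat I v ∧ ψ.Sat I v
  | _, .ex φ, v => ∃ t, φ.Sat I (Fin.cons t v)

def Fm.code : ∀ {n}, Fm n → ℕ
  | _, .sub i j => Nat.pair 0 (Nat.pair i j)
  | _, .ind i => Nat.pair 1 i
  | _, .not φ => Nat.pair 2 φ.code
  | _, .and φ ψ => Nat.pair 3 (Nat.pair φ.code ψ.code)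
  | _, .ex φ => Nat.pair 4 φ.code

/-- the theory of the rank 3 frame matroids of finite `H`-gain graphs -/
def Theory (H : Type) [Group H] : Set (Fm 0) :=
  {φ | ∀ (V E : Type) [Finite V] [Finite E] (G : GainGraph H V E), G.Rank 3 → φ.Sat G.Ind Fin.elim0}

end Pool.Agent.H.MP_682a55_lc
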